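import Pool.Agent.H329R3.NU.Stmts
import Pool.Agent.H595R3.PM_KInt

/-! TaskPert of project H329-NU: the perturbed function is a state close to `h`. -/

set_option autoImplicit false

open MeasureTheory Set Filter Topology

namespace Pool.Agent.H201R3.NUPert

open Pool.Agent.H329R3.PM Pool.Agent.H329R3.NU

/-- pointwise algebra -/
theorem alg {δ W F T s W' F' T' a e : ℝ} (hδ : 0 < δ) (hW : δ ≤ W) (hF : δ ≤ F) (hT : δ ≤ T)
    (hst : F ^ 2 ≤ (1 - δ) * (T ^ 2 * W)) (ha0 : 0 ≤ a)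
    (ha : a ≤ (1 - F ^ 2 / (T ^ 2 * W)) / 2) (hs : |s - 1| ≤ a) (hW' : |W' - s * W| ≤ e)
    (hF' : |F' - s * F| ≤ e) (hT' : |T' - T| ≤ e) (he : e ≤ δ ^ 2 / 40) :
    δ / 8 ≤ W' ∧ δ / 8 ≤ F' ∧ δ / 8 ≤ T' ∧ F' ^ 2 ≤ (1 - δ / 8) * (T' ^ 2 * W') := by
  have hWp : 0 < W := by linarith
  have hFp : 0 < F := by linarith
  have hTp : 0 < T := by linarith
  have hTW : 0 < T ^ 2 * W := by positivity
  have hδ1 : δ < 1 := by
    by_contra hcon
    push Not at hcon
    have h1 : 0 < F ^ 2 := by positivity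
    nlinarith
  obtain ⟨ρ, hρ⟩ : ∃ ρ, ρ = F ^ 2 / (T ^ 2 * W) := ⟨_, rfl⟩
  have hρF : F ^ 2 = ρ * (T ^ 2 * W) := by
    rw [hρ]
    field_simp
  have hρ0 : 0 < ρ := by
    rw [hρ]
    positivity
  have hρ1 : ρ ≤ 1 - δ := by
    rw [hρ, div_le_iff₀ hTW]
    exact hst
  rw [← hρ] at ha
  rw [abs_le] at hs hW' hF' hT'
  have ha2 : a ≤ 1 / 2 := by linarith
  have hs1 : 1 / 2 ≤ s := by linarith [hs.1]
  have hs0 : 0 < s := by linarith
  have hs2 : s ≤ 1 + a := by linarith [hs.2]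
  obtain ⟨η, hη⟩ : ∃ η, η = δ / 20 := ⟨_, rfl⟩
  have hη0 : 0 < η := by rw [hη]; positivity
  have hη1 : η < 1 / 20 := by rw [hη]; linarith
  have hsW : δ / 2 ≤ s * W := by nlinarith
  have hsF : δ / 2 ≤ s * F := by nlinarith
  have he1 : e ≤ η * (δ / 2) := by
    rw [hη]
    calc e ≤ δ ^ 2 / 40 := he
      _ = δ / 20 * (δ / 2) := by ring
  have heW : e ≤ η * (s * W) := he1.trans (mul_le_mul_of_nonneg_left hsW hη0.le)
  have heF : e ≤ η * (s * F) := he1.trans (mul_le_mul_of_nonneg_left hsF hη0.le)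
  have heT : e ≤ η * T := he1.trans (mul_le_mul_of_nonneg_left (by linarith) hη0.le)
  have hW1 : (1 - η) * (s * W) ≤ W' := by linarith [hW'.1]
  have hF1 : (1 - η) * (s * F) ≤ F' := by linarith [hF'.1]
  have hF2 : F' ≤ (1 + η) * (s * F) := by linarith [hF'.2]
  have hT1 : (1 - η) * T ≤ T' := by linarith [hT'.1]
  have h19 : 19 / 20 ≤ 1 - η := by linarith
  have h1η : 0 < 1 - η := by linarith
  refine ⟨?_, ?_, ?_, ?_⟩
  · have : 19 / 20 * (δ / 2) ≤ (1 - η) * (s * W) :=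
      mul_le_mul h19 hsW (by positivity) h1η.le
    linarith
  · have : 19 / 20 * (δ / 2) ≤ (1 - η) * (s * F) :=
      mul_le_mul h19 hsF (by positivity) h1η.le
    linarith
  · have : 19 / 20 * δ ≤ (1 - η) * T :=
      mul_le_mul h19 hT (by positivity) h1η.le
    linarith
  · have hFp' : 0 ≤ F' := le_trans (by positivity) hF1
    have hTp' : 0 ≤ (1 - η) * T := by positivity
    have hWp' : 0 ≤ (1 - η) * (s * W) := by positivity
    have e1 : F' ^ 2 ≤ ((1 + η) * (s * F)) ^ 2 := pow_le_pow_left₀ hFp' hF2 2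
    have e2 : ((1 - η) * T) ^ 2 * ((1 - η) * (s * W)) ≤ T' ^ 2 * W' :=
      mul_le_mul (pow_le_pow_left₀ hTp' hT1 2) hW1 hWp' (by positivity)
    have e3 : ((1 + η) * (s * F)) ^ 2 = ((1 + η) ^ 2 * (s * ρ)) * (s * (T ^ 2 * W)) := by
      calc ((1 + η) * (s * F)) ^ 2 = (1 + η) ^ 2 * s ^ 2 * F ^ 2 := by ring
        _ = (1 + η) ^ 2 * s ^ 2 * (ρ * (T ^ 2 * W)) := by rw [hρF]
        _ = _ := by ring
    have e4 : ((1 - η) * T) ^ 2 * ((1 - η) * (s * W)) = (1 - η) ^ 3 * (s * (T ^ 2 * W)) := by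
      ring
    have h5 : s * ρ ≤ 1 - δ / 2 := by
      have h6 : s * ρ ≤ (1 + (1 - ρ) / 2) * ρ := by
        apply mul_le_mul_of_nonneg_right _ hρ0.le
        linarith
      have h7 : (1 + (1 - ρ) / 2) * ρ ≤ 1 - δ / 2 := by nlinarith
      linarith
    have h8 : (1 + η) ^ 2 * (s * ρ) ≤ (1 - δ / 8) * (1 - η) ^ 3 := by
      have h9 : (1 + η) ^ 2 ≤ 1 + 3 * η := by nlinarith
      have h10 : 1 - 3 * η ≤ (1 - η) ^ 3 := by
        have h12 : (1 - η) ^ 3 - (1 - 3 * η) = η ^ 2 * (3 - η) := by ring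
        have h13 : 0 ≤ η ^ 2 * (3 - η) := mul_nonneg (sq_nonneg η) (by linarith)
        linarith
      have h11 : 0 < s * ρ := by positivity
      calc (1 + η) ^ 2 * (s * ρ) ≤ (1 + 3 * η) * (1 - δ / 2) :=
            mul_le_mul h9 h5 h11.le (by linarith)
        _ ≤ (1 - δ / 8) * (1 - 3 * η) := by
            rw [hη]
            have h14 : (1 - δ / 8) * (1 - 3 * (δ / 20)) - (1 + 3 * (δ / 20)) * (1 - δ / 2) =
              3 / 40 * δ + 3 / 32 * δ ^ 2 := by ring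
            have h15 : 0 ≤ 3 / 40 * δ + 3 / 32 * δ ^ 2 := by positivity
            linarith
        _ ≤ (1 - δ / 8) * (1 - η) ^ 3 := mul_le_mul_of_nonneg_left h10 (by linarith)
    have hsTW : 0 < s * (T ^ 2 * W) := by positivity
    calc F' ^ 2 ≤ ((1 + η) ^ 2 * (s * ρ)) * (s * (T ^ 2 * W)) := by rw [← e3]; exact e1
      _ ≤ ((1 - δ / 8) * (1 - η) ^ 3) * (s * (T ^ 2 * W)) :=
          mul_le_mul_of_nonneg_right h8 hsTW.le
      _ = (1 - δ / 8) * (((1 - η) * T) ^ 2 * ((1 - η) * (s * W))) := by ring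
      _ ≤ (1 - δ / 8) * (T' ^ 2 * W') := mul_le_mul_of_nonneg_left e2 (by linarith)

theorem alg2 {δ W F s W' F' e M : ℝ} (hδ : 0 < δ) (hW : δ ≤ W) (hF : 0 ≤ F) (hM : F ≤ M)
    (hW' : |W' - s * W| ≤ e) (hF' : |F' - s * F| ≤ e) (hW2 : δ / 8 ≤ W') :
    |F' / W' - F / W| ≤ e * (1 + M / δ) / (δ / 8) := by
  have hWp : 0 < W := by linarith
  have hWp' : 0 < W' := by linarith
  have he : 0 ≤ e := (abs_nonneg _).trans hW'
  have e1 : F' / W' - F / W = ((F' - s * F) - (F / W) * (W' - s * W)) / W' := by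
    field_simp
    ring
  have hFW : F / W ≤ M / δ := div_le_div₀ (by linarith) hM hδ hW
  have hFW0 : 0 ≤ F / W := by positivity
  rw [e1, abs_div, abs_of_pos hWp']
  have e2 : |(F' - s * F) - (F / W) * (W' - s * W)| ≤ e * (1 + M / δ) := by
    calc _ ≤ |F' - s * F| + |(F / W) * (W' - s * W)| := abs_sub _ _
      _ = |F' - s * F| + (F / W) * |W' - s * W| := by rw [abs_mul, abs_of_nonneg hFW0]
      _ ≤ e + (M / δ) * e := by
          apply add_le_add hF'
          exact mul_le_mul hFW hW' (abs_nonneg _) (by linarith)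
      _ = _ := by ring
  have h0 : 0 ≤ e * (1 + M / δ) := (abs_nonneg _).trans e2
  exact div_le_div₀ h0 e2 (by positivity) hW2

/-- bounds for functions with compact support in `Om` -/
theorem bound_div {F : ℝ × ℝ → ℝ} (hF : Continuous F) {K : Set (ℝ × ℝ)} (hK : IsCompact K)
    (hKO : K ⊆ Om) (h0 : ∀ z, z ∉ K → F z = 0) (k : ℕ) :
    ∃ M : ℝ, 0 ≤ M ∧ ∀ z, |F z / z.1 ^ k| ≤ M := by
  have hc : ContinuousOn (fun z : ℝ × ℝ => F z / z.1 ^ k) K := by
    apply ContinuousOn.div hF.continuousOn (by fun_prop)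
    intro z hz
    have : 0 < z.1 := (hKO hz).1.1
    positivity
  obtain ⟨M, hM⟩ := hK.exists_bound_of_continuousOn hc
  refine ⟨max M 0, le_max_right _ _, fun z => ?_⟩
  by_cases hz : z ∈ K
  · have := hM z hz
    rw [Real.norm_eq_abs] at this
    exact this.trans (le_max_left _ _)
  · rw [h0 z hz, zero_div, abs_zero]
    exact le_max_right _ _

theorem dy_cont {h : ℝ × ℝ → ℝ} (hh : ContDiff ℝ 2 h) : Continuous (dy h) := by
  unfold dy
  exact (hh.continuous_fderiv (by norm_num)).clm_apply continuous_const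

theorem dt_cont {h : ℝ × ℝ → ℝ} (hh : ContDiff ℝ 2 h) : Continuous (dt h) := by
  unfold dt
  exact (hh.continuous_fderiv (by norm_num)).clm_apply continuous_const

theorem dy_zero {h : ℝ × ℝ → ℝ} {z : ℝ × ℝ} (hz : z ∉ tsupport h) : dy h z = 0 := by
  unfold dy
  rw [fderiv_of_notMem_tsupport ℝ hz]
  rfl

theorem dt_zero {h : ℝ × ℝ → ℝ} {z : ℝ × ℝ} (hz : z ∉ tsupport h) : dt h z = 0 := by
  unfold dt
  rw [fderiv_of_notMem_tsupport ℝ hz]
  rfl

theorem exists_y0 {K : Set (ℝ × ℝ)} (hK : IsCompact K) (hKO : K ⊆ Om) :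
    ∃ y0 ∈ Ioo (0 : ℝ) 1, ∀ z ∈ K, y0 ≤ z.1 := by
  by_cases hne : K.Nonempty
  · obtain ⟨z0, hz0, hmin⟩ := hK.exists_isMinOn hne continuous_fst.continuousOn
    exact ⟨z0.1, (hKO hz0).1, fun z hz => hmin hz⟩
  · refine ⟨1 / 2, by constructor <;> norm_num, fun z hz => ?_⟩
    exact absurd ⟨z, hz⟩ hne

/-- primitive of the difference of the densities -/
theorem prim_bound {H : ℝ × ℝ → ℝ} (hH : ContDiff ℝ 2 H) {c : ℝ} (hc : ∀ z, |H z| ≤ c) {y0 : ℝ}
    (hy0 : 0 < y0) (hy1 : y0 < 1) (t : ℝ) {y : ℝ} (hy : y ∈ Icc y0 1) :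
    |∫ ρ in Ioc y0 y, dy H (ρ, t) / ρ ^ 2| ≤ 4 * c / y0 ^ 3 := by
  have hc0 : 0 ≤ c := (abs_nonneg _).trans (hc 0)
  have hle : y0 ≤ y := hy.1
  rw [← intervalIntegral.integral_of_le hle]
  have hpos : ∀ ρ ∈ uIcc y0 y, 0 < ρ := by
    intro ρ hρ
    rw [uIcc_of_le hle] at hρ
    linarith [hρ.1]
  have hHt : ∀ ρ : ℝ, HasDerivAt (fun ρ : ℝ => H (ρ, t)) (dy H (ρ, t)) ρ := by
    intro ρ
    have h1 : HasFDerivAt H (fderiv ℝ H (ρ, t)) (ρ, t) :=
      (hH.differentiable (by norm_num) _).hasFDerivAt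
    have h2 : HasDerivAt (fun ρ : ℝ => ((ρ, t) : ℝ × ℝ)) ((1 : ℝ), (0 : ℝ)) ρ :=
      (hasDerivAt_id ρ).prodMk (hasDerivAt_const ρ t)
    exact h1.comp_hasDerivAt ρ h2
  have hΦ : ∀ ρ ∈ uIcc y0 y, HasDerivAt (fun ρ : ℝ => H (ρ, t) / ρ ^ 2)
      (dy H (ρ, t) / ρ ^ 2 - 2 * H (ρ, t) / ρ ^ 3) ρ := by
    intro ρ hρ
    have hρ0 := hpos ρ hρ
    have h1 := (hHt ρ).div (hasDerivAt_pow 2 ρ) (by positivity)
    refine h1.congr_deriv ?_
    field_simp
    ring
  have hdyc : Continuous (fun ρ : ℝ => dy H (ρ, t)) := (dy_cont hH).comp (by fun_prop)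
  have hHc : Continuous (fun ρ : ℝ => H (ρ, t)) := hH.continuous.comp (by fun_prop)
  have hi1 : IntervalIntegrable (fun ρ : ℝ => dy H (ρ, t) / ρ ^ 2) volume y0 y := by
    apply ContinuousOn.intervalIntegrable
    apply ContinuousOn.div hdyc.continuousOn (by fun_prop)
    intro ρ hρ
    have := hpos ρ hρ
    positivity
  have hi2 : IntervalIntegrable (fun ρ : ℝ => 2 * H (ρ, t) / ρ ^ 3) volume y0 y := by
    apply ContinuousOn.intervalIntegrable
    apply ContinuousOn.div (continuous_const.mul hHc).continuousOn (by fun_prop)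
    intro ρ hρ
    have := hpos ρ hρ
    positivity
  have hFTC := intervalIntegral.integral_eq_sub_of_hasDerivAt hΦ (hi1.sub hi2)
  rw [intervalIntegral.integral_sub hi1 hi2] at hFTC
  have hb2 : |∫ ρ in y0..y, 2 * H (ρ, t) / ρ ^ 3| ≤ 2 * c / y0 ^ 3 := by
    have h1 := intervalIntegral.norm_integral_le_of_norm_le_const
      (f := fun ρ : ℝ => 2 * H (ρ, t) / ρ ^ 3) (a := y0) (b := y) (C := 2 * c / y0 ^ 3) (by
        intro ρ hρ
        rw [uIoc_of_le hle] at hρ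
        have hρ0 : 0 < ρ := by linarith [hρ.1]
        rw [Real.norm_eq_abs, abs_div, abs_mul, abs_of_pos (show (0:ℝ) < 2 by norm_num),
          abs_of_pos (show (0:ℝ) < ρ ^ 3 by positivity)]
        apply div_le_div₀ (by positivity) (by linarith [hc (ρ, t)]) (by positivity)
        exact pow_le_pow_left₀ hy0.le hρ.1.le 3)
    rw [Real.norm_eq_abs] at h1
    have h2 : |y - y0| ≤ 1 := by
      rw [abs_of_nonneg (by linarith)]
      linarith [hy.2]
    have h3 : 0 ≤ 2 * c / y0 ^ 3 := by positivity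
    calc _ ≤ 2 * c / y0 ^ 3 * |y - y0| := h1
      _ ≤ 2 * c / y0 ^ 3 * 1 := mul_le_mul_of_nonneg_left h2 h3
      _ = _ := mul_one _
  have hq : ∀ r : ℝ, y0 ≤ r → |H (r, t) / r ^ 2| ≤ c / y0 ^ 3 := by
    intro r hr
    have hr0 : 0 < r := by linarith
    rw [abs_div, abs_of_pos (show (0:ℝ) < r ^ 2 by positivity)]
    apply div_le_div₀ hc0 (hc _) (by positivity)
    calc y0 ^ 3 = y0 ^ 2 * y0 := by ring
      _ ≤ y0 ^ 2 * 1 := mul_le_mul_of_nonneg_left hy1.le (by positivity)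
      _ = y0 ^ 2 := mul_one _
      _ ≤ r ^ 2 := pow_le_pow_left₀ hy0.le hr 2
  have h1 := hq y hle
  have h2 := hq y0 le_rfl
  have e : ∫ ρ in y0..y, dy H (ρ, t) / ρ ^ 2 =
      H (y, t) / y ^ 2 - H (y0, t) / y0 ^ 2 + ∫ ρ in y0..y, 2 * H (ρ, t) / ρ ^ 3 := by
    linarith
  rw [e]
  calc _ ≤ |H (y, t) / y ^ 2 - H (y0, t) / y0 ^ 2| + |∫ ρ in y0..y, 2 * H (ρ, t) / ρ ^ 3| :=
        abs_add_le _ _
    _ ≤ (|H (y, t) / y ^ 2| + |H (y0, t) / y0 ^ 2|) + 2 * c / y0 ^ 3 :=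
        add_le_add (abs_sub _ _) hb2
    _ ≤ (c / y0 ^ 3 + c / y0 ^ 3) + 2 * c / y0 ^ 3 := by linarith
    _ = 4 * c / y0 ^ 3 := by ring

/-- the density is measurable and bounded -/
theorem W_meas {h : ℝ × ℝ → ℝ} (hh : ContDiff ℝ 2 h) (t : ℝ) :
    Measurable (fun ρ : ℝ => W h (ρ, t)) := by
  unfold W
  have hdyc : Continuous (fun ρ : ℝ => dy h (ρ, t)) := (dy_cont hh).comp (by fun_prop)
  exact measurable_const.add (hdyc.measurable.div (measurable_id.pow_const 2))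

theorem kk_int_mul {r : ℝ} (hr : 0 < r) {w : ℝ → ℝ} (hw : Measurable w) {B : ℝ}
    (hB : ∀ y, |w y| ≤ B) : IntegrableOn (fun y => kk r y * w y) (Ioc (0 : ℝ) 1) := by
  have h1 := Pool.Agent.H595R3.PMKInt.taskKInt.2.2 r hr
  exact Integrable.mul_bdd (c := B) h1 hw.aestronglyMeasurable
    (Filter.Eventually.of_forall (fun y => by rw [Real.norm_eq_abs]; exact hB y))

theorem taskPert : TaskPert := by
  intro hPF hMix A κ h a hA hκ hSt hAmp ε hε
  obtain ⟨hreg, C, hC0, hC⟩ := hPF κ h a hSt.smooth hSt.cpt hSt.supp hAmp.smooth hAmp.cpt hAmp.supp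
  obtain ⟨δ, hδ, hst⟩ := hSt.strict
  -- the compact set
  set K : Set (ℝ × ℝ) := tsupport h ∪ tsupport a with hKdef
  have hK : IsCompact K := IsCompact.union hSt.cpt hAmp.cpt
  have hKO : K ⊆ Om := union_subset hSt.supp hAmp.supp
  obtain ⟨y0, hy0, hy0K⟩ := exists_y0 hK hKO
  have hsuppn : ∀ n : ℕ, tsupport (pert a h n) ⊆ K := by
    intro n
    apply closure_minimal _ hK.isClosed
    intro z hz
    by_contra hzK
    apply hz
    have h1 : h z = 0 := image_eq_zero_of_notMem_tsupport (fun h' => hzK (Or.inl h'))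
    have h2 : a z = 0 := image_eq_zero_of_notMem_tsupport (fun h' => hzK (Or.inr h'))
    unfold pert
    rw [h1, h2]
    simp
  -- bounds of the density and the flux
  obtain ⟨M1, hM10, hM1⟩ := bound_div (dy_cont hSt.smooth) hSt.cpt hSt.supp
    (fun z hz => dy_zero hz) 2
  obtain ⟨M2, hM20, hM2⟩ := bound_div (dt_cont hSt.smooth) hSt.cpt hSt.supp
    (fun z hz => dt_zero hz) 3
  have hWb : ∀ z, |W h z| ≤ 1 + M1 := by
    intro z
    unfold W
    calc _ ≤ |(1:ℝ)| + |dy h z / z.1 ^ 2| := abs_add_le _ _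
      _ ≤ 1 + M1 := by
        rw [abs_one]
        linarith [hM1 z]
  have hFb : ∀ z, Fl κ h z ≤ κ * (1 + M1) + M2 := by
    intro z
    unfold Fl
    have h1 := (le_abs_self _).trans (hWb z)
    have h2 := (abs_le.mp (hM2 z)).1
    have h3 : κ * W h z ≤ κ * (1 + M1) := mul_le_mul_of_nonneg_left h1 hκ.le
    linarith
  set M : ℝ := κ * (1 + M1) + M2 with hM
  have hMp : 0 ≤ M := by positivity
  -- amplitude
  have ha0 : ∀ z, z ∉ Om → a z = 0 := fun z hz =>
    image_eq_zero_of_notMem_tsupport (fun h' => hz (hAmp.supp h'))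
  have hale : ∀ z ∈ Qc, a z ≤ (1 - Fl κ h z ^ 2 / (Th A κ h z ^ 2 * W h z)) / 2 := by
    intro z hz
    by_cases hzO : z ∈ Om
    · exact hAmp.le z hzO
    · rw [ha0 z hzO]
      obtain ⟨h1, h2, h3, h4⟩ := hst z hz
      have hp : 0 < Th A κ h z ^ 2 * W h z := by
        have : 0 < Th A κ h z := by linarith
        have : 0 < W h z := by linarith
        positivity
      have : Fl κ h z ^ 2 / (Th A κ h z ^ 2 * W h z) ≤ 1 - δ := by
        rw [div_le_iff₀ hp]
        exact h4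
      linarith
  have hahalf : ∀ z ∈ Qc, a z ≤ 1 / 2 := by
    intro z hz
    obtain ⟨h1, h2, h3, h4⟩ := hst z hz
    have h5 := hale z hz
    have hp : 0 < Th A κ h z ^ 2 * W h z := by
      have : 0 < Th A κ h z := by linarith
      have : 0 < W h z := by linarith
      positivity
    have : 0 ≤ Fl κ h z ^ 2 / (Th A κ h z ^ 2 * W h z) := by positivity
    linarith
  -- the error
  set e0 : ℝ := min (δ ^ 2 / 40) (min ε (ε * (δ / 8) / (1 + M / δ))) with he0
  have he0pos : 0 < e0 := by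
    rw [he0]
    apply lt_min (by positivity)
    apply lt_min hε
    positivity
  have he0a : e0 ≤ δ ^ 2 / 40 := min_le_left _ _
  have he0b : e0 ≤ ε := (min_le_right _ _).trans (min_le_left _ _)
  have he0c : e0 ≤ ε * (δ / 8) / (1 + M / δ) := (min_le_right _ _).trans (min_le_right _ _)
  -- mixing
  set B : ℝ := C + (1 + M1) + 1 with hB
  have hBpos : 0 < B := by positivity
  obtain ⟨ηm, hηm, hmix⟩ := hMix y0 hy0 (e0 / A) (by positivity) B hBpos
  have hy0p : 0 < y0 := hy0.1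
  obtain ⟨n₀, hn₀⟩ := exists_nat_ge (max (C / e0) (4 * C / y0 ^ 3 / ηm))
  refine ⟨n₀, fun n hn hn0 => ?_⟩
  have hnr : (0:ℝ) < n := by exact_mod_cast hn0
  have hnn : (n₀ : ℝ) ≤ n := by exact_mod_cast hn
  have hn1 : (1:ℝ) ≤ n := by exact_mod_cast hn0
  have hCn : C / n ≤ e0 := by
    have h1 : C / e0 ≤ n := (le_max_left _ _).trans (hn₀.trans hnn)
    rw [div_le_iff₀ he0pos] at h1
    rw [div_le_iff₀ hnr]
    linarith
  have hCn1 : C / n ≤ C := div_le_self hC0 hn1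
  have hηn : 4 * (C / n) / y0 ^ 3 ≤ ηm := by
    have h1 : 4 * C / y0 ^ 3 / ηm ≤ n := (le_max_right _ _).trans (hn₀.trans hnn)
    rw [div_le_iff₀ hηm] at h1
    have h2 : 4 * (C / n) / y0 ^ 3 = 4 * C / y0 ^ 3 / n := by ring
    rw [h2, div_le_iff₀ hnr]
    linarith
  obtain ⟨hsm, hcp, hsu⟩ := hreg n hn0
  obtain ⟨hhn, hWF⟩ := hC n hn0
  set h' := pert a h n with hh'
  -- the nonlocal term
  have hTh : ∀ z ∈ Qc, |Th A κ h' z - Th A κ h z| ≤ e0 := by
    intro z hz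
    obtain ⟨hz1, hz2⟩ := hz
    obtain ⟨M3, hM30, hM3⟩ := bound_div (dy_cont hsm) hcp hsu (fun z hz => dy_zero hz) 2
    have hWb' : ∀ z, |W h' z| ≤ 1 + M3 := by
      intro z
      unfold W
      calc _ ≤ |(1:ℝ)| + |dy h' z / z.1 ^ 2| := abs_add_le _ _
        _ ≤ 1 + M3 := by
          rw [abs_one]
          linarith [hM3 z]
    set g : ℝ → ℝ := fun ρ => W h' (ρ, z.2) - W h (ρ, z.2) with hg
    have hgm : Measurable g := (W_meas hsm z.2).sub (W_meas hSt.smooth z.2)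
    have hgz : ∀ y, y ∉ Icc y0 1 → g y = 0 := by
      intro y hy
      have hnK : ((y, z.2) : ℝ × ℝ) ∉ K := by
        intro hyK
        apply hy
        exact ⟨hy0K _ hyK, (hKO hyK).1.2.le⟩
      simp only [hg]
      unfold W
      rw [dy_zero (fun h1 => hnK (hsuppn n h1)), dy_zero (fun h1 => hnK (Or.inl h1))]
      ring
    have hgB : ∀ y, |g y| ≤ B := by
      intro y
      by_cases hy : y ∈ Icc y0 1
      · have hQ : ((y, z.2) : ℝ × ℝ) ∈ Qc := ⟨⟨by linarith [hy.1], hy.2⟩, hz2⟩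
        have h1 := (hWF _ hQ).1
        have h2 := hahalf _ hQ
        have h3 := hAmp.nonneg (y, z.2)
        have h4 := hWb (y, z.2)
        have e1 : g y = (W h' (y, z.2) - (1 + a (y, z.2) *
            Real.cos (n * (((y, z.2) : ℝ × ℝ).1 ^ 3 / 3 + h (y, z.2)))) * W h (y, z.2)) +
            a (y, z.2) * Real.cos (n * (((y, z.2) : ℝ × ℝ).1 ^ 3 / 3 + h (y, z.2))) *
              W h (y, z.2) := by
          simp only [hg]
          ring
        rw [e1]
        have h5 : |a (y, z.2) * Real.cos (n * (((y, z.2) : ℝ × ℝ).1 ^ 3 / 3 + h (y, z.2))) *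
              W h (y, z.2)| ≤ 1 * (1 + M1) := by
          rw [abs_mul, abs_mul, abs_of_nonneg h3]
          apply mul_le_mul _ h4 (abs_nonneg _) (by norm_num)
          calc _ ≤ a (y, z.2) * 1 := mul_le_mul_of_nonneg_left (Real.abs_cos_le_one _) h3
            _ ≤ 1 := by linarith
        calc _ ≤ _ := abs_add_le _ _
          _ ≤ C / n + 1 * (1 + M1) := add_le_add h1 h5
          _ ≤ B := by
            rw [hB]
            linarith
      · rw [hgz y hy, abs_zero]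
        exact hBpos.le
    have hH : ContDiff ℝ 2 (fun z => h' z - h z) := hsm.sub hSt.smooth
    have hgprim : ∀ y ∈ Icc y0 1, |∫ ρ in Ioc y0 y, g ρ| ≤ ηm := by
      intro y hy
      have h1 := prim_bound hH (c := C / n) hhn hy0.1 hy0.2 z.2 hy
      have h2 : ∀ ρ, g ρ = dy (fun z => h' z - h z) (ρ, z.2) / ρ ^ 2 := by
        intro ρ
        simp only [hg]
        unfold W dy
        have h3 : fderiv ℝ (fun z => h' z - h z) (ρ, z.2) =
            fderiv ℝ h' (ρ, z.2) - fderiv ℝ h (ρ, z.2) :=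
          fderiv_fun_sub (hsm.differentiable (by norm_num) _)
            (hSt.smooth.differentiable (by norm_num) _)
        rw [h3]
        simp only [sub_apply]
        ring
      simp only [h2]
      exact h1.trans hηn
    have hS := hmix g hgm hgB hgz hgprim z.1 hz1
    have hsub : Sop kk (fun ρ => W h' (ρ, z.2)) z.1 - Sop kk (fun ρ => W h (ρ, z.2)) z.1 =
        Sop kk g z.1 := by
      unfold Sop
      rw [← integral_sub
        (kk_int_mul hz1.1 (W_meas hsm z.2) (fun y => hWb' (y, z.2)))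
        (kk_int_mul hz1.1 (W_meas hSt.smooth z.2) (fun y => hWb (y, z.2)))]
      congr 1
      ext y
      simp only [hg]
      ring
    have hexp : Real.exp (-2 * κ * z.2) ≤ 1 := by
      rw [Real.exp_le_one_iff]
      have : 0 ≤ κ * z.2 := mul_nonneg hκ.le hz2.1
      linarith
    have hexp0 : 0 < Real.exp (-2 * κ * z.2) := Real.exp_pos _
    unfold Th Sth
    have e2 : A * (Real.exp (-2 * κ * z.2) / 2) * Sop kk (fun ρ => W h' (ρ, z.2)) z.1 -
        A * (Real.exp (-2 * κ * z.2) / 2) * Sop kk (fun ρ => W h (ρ, z.2)) z.1 =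
        A * (Real.exp (-2 * κ * z.2) / 2) * Sop kk g z.1 := by
      rw [← hsub]
      ring
    rw [e2, abs_mul, abs_of_nonneg (by positivity)]
    calc A * (Real.exp (-2 * κ * z.2) / 2) * |Sop kk g z.1| ≤ A * 1 * (e0 / A) := by
          apply mul_le_mul _ hS (abs_nonneg _) (by positivity)
          apply mul_le_mul_of_nonneg_left _ hA.le
          linarith
      _ = e0 := by
          field_simp
  have hall : ∀ z ∈ Qc, (δ / 8 ≤ W h' z ∧ δ / 8 ≤ Fl κ h' z ∧ δ / 8 ≤ Th A κ h' z ∧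
      Fl κ h' z ^ 2 ≤ (1 - δ / 8) * (Th A κ h' z ^ 2 * W h' z)) ∧
      |Nu κ h' z - Nu κ h z| ≤ ε := by
    intro z hz
    obtain ⟨h1, h2, h3, h4⟩ := hst z hz
    obtain ⟨h5, h6⟩ := hWF z hz
    have hs : |(1 + a z * Real.cos (n * (z.1 ^ 3 / 3 + h z))) - 1| ≤ a z := by
      have e1 : (1 + a z * Real.cos (n * (z.1 ^ 3 / 3 + h z))) - 1 =
          a z * Real.cos (n * (z.1 ^ 3 / 3 + h z)) := by ring
      rw [e1, abs_mul, abs_of_nonneg (hAmp.nonneg z)]
      calc _ ≤ a z * 1 :=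
            mul_le_mul_of_nonneg_left (Real.abs_cos_le_one _) (hAmp.nonneg z)
        _ = a z := mul_one _
    have h7 := alg hδ h1 h2 h3 h4 (hAmp.nonneg z) (hale z hz) hs (h5.trans hCn) (h6.trans hCn)
      (hTh z hz) he0a
    refine ⟨h7, ?_⟩
    have h8 := alg2 hδ h1 (hδ.le.trans h2) (hFb z) (h5.trans hCn) (h6.trans hCn) h7.1
    unfold Nu
    refine h8.trans ?_
    have hMδ : 0 < 1 + M / δ := by positivity
    rw [div_le_iff₀ (by positivity)]
    rw [le_div_iff₀ hMδ] at he0c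
    exact he0c
  refine ⟨⟨hsm, hcp, hsu, δ / 8, by positivity, fun z hz => (hall z hz).1⟩, ?_, ?_, ?_⟩
  · intro z
    exact (hhn z).trans (hCn.trans he0b)
  · intro z hz
    exact (hTh z hz).trans he0b
  · intro z hz
    exact (hall z hz).2

end Pool.Agent.H201R3.NUPert
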